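import Pool.Agent.N579.P24.C2G

/-!
# P24x-C2 (helper579): `n ≡ 3 mod 24`

The symbols are adapted from `Pool/Agent/N789/P24/C2A.lean` (helper789).
-/

set_option autoImplicit false

namespace Pool.Agent.N579.P24

open Finset
open Pool.Agent.Z700 (hh fac)
open Pool.Agent.Y574.Z7 (chp chp_mul chp_one chp_self chp_nd chp_sq chp_pm jac_eq sum_local two_pt
  dvd_fac nd4 jac_prod)
open Pool.Agent.N877.P24
open Pool.Agent.N789.P24 (wq psp_eq s2 sg_eq s2_sum fac_ST alt_zero Ps Ps_one Ps_mul Ps_pm fac4 chp4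
  pf_four fac42)

/-! ### the local densities -/

theorem hh_gen {n D l : ℕ} (hp : l.Prime) (hodd : Odd l) (hn : n ≠ 0) (h1 : n.factorization l = 1) :
    hh n D l = ZMod.χ₄ l * (chp l n) ^ D.factorization l * chp l D := by
  have hsq : chp l n * chp l n = 1 := chp_sq hp hn
  have e1 : jacobiSym ((n / l : ℕ) : ℤ) l = chp l n := by
    unfold chp
    rw [h1, pow_one]
  unfold hh
  rw [jacobiSym.neg _ hodd, jacobiSym.neg _ hodd, Nat.cast_mul, jacobiSym.mul_left, e1]
  have e2 : jacobiSym ((D / l ^ D.factorization l : ℕ) : ℤ) l = chp l D := rfl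
  rw [e2]
  split_ifs with h
  · obtain ⟨k, hk⟩ := h
    rw [hk, ← two_mul, pow_mul, sq, hsq, one_pow]
    ring
  · rw [Nat.not_even_iff_odd] at h
    obtain ⟨k, hk⟩ := h
    rw [hk, pow_succ, pow_mul, sq, hsq, one_pow]
    ring

theorem fac_four {n D l : ℕ} (hl : l.Prime) (h2 : l ≠ 2) (hn : n ≠ 0) (hD : D ≠ 0)
    (h1 : l ∣ n → n.factorization l = 1) : fac n (4 * D) l = fac n D l := by
  unfold fac
  split_ifs with h
  · rw [hh_gen hl (hl.odd_of_ne_two h2) hn (h1 h), hh_gen hl (hl.odd_of_ne_two h2) hn (h1 h),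
      fac4 hD hl h2, chp4 hl]
  · rw [fac4 hD hl h2]

theorem fac_Fl {P : Finset ℕ} {ψ : ℕ → ℤ} {S T n l : ℕ} (hS : S ≠ 0) (hT : T ≠ 0) (hn : n ≠ 0)
    (hl : l.Prime) (h2 : l ≠ 2) (hP : l ∈ P ↔ l ∣ n)
    (h1 : l ∣ n → n.factorization l = 1 ∧ ψ l = chp l n)
    (h3 : ¬ l ∣ n → ψ l = jacobiSym (-(n : ℤ)) l) : fac n (S * T) l = Fl P ψ S T l := by
  unfold fac Fl
  by_cases h : l ∣ n
  · rw [if_pos h, if_pos (hP.2 h), hh_gen hl (hl.odd_of_ne_two h2) hn (h1 h).1, ← (h1 h).2,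
      fac_ST hS hT, chp_mul]
    ring
  · rw [if_neg h, if_neg (fun h4 => h (hP.1 h4)), ← h3 h, fac_ST hS hT]

/-! ### the class -/

/-- the hypotheses on `n` -/
structure OkA (n : ℕ) : Prop where
  sq : Squarefree n
  m8 : n % 8 = 3

variable {n : ℕ}

theorem OkA.m4 (h : OkA n) : n % 4 = 3 := by
  have := h.m8
  omega

theorem OkA.n0 (h : OkA n) : n ≠ 0 := by
  rintro rfl
  have := h.m4
  omega

theorem OkA.odd (h : OkA n) : Odd n := by
  have := h.m4
  rw [Nat.odd_iff]; omega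

theorem pf_prime {q : ℕ} (hq : q ∈ n.primeFactors) : q.Prime := Nat.prime_of_mem_primeFactors hq

theorem pf_dvd {q : ℕ} (hq : q ∈ n.primeFactors) : q ∣ n := Nat.dvd_of_mem_primeFactors hq

theorem OkA.mem (h : OkA n) {q : ℕ} (hq : q.Prime) : q ∈ n.primeFactors ↔ q ∣ n :=
  ⟨pf_dvd, fun hd => Nat.mem_primeFactors.2 ⟨hq, hd, h.n0⟩⟩

theorem OkA.ne2 (h : OkA n) {q : ℕ} (hq : q ∈ n.primeFactors) : q ≠ 2 := by
  rintro rfl
  have h1 := pf_dvd hq
  have := h.m4
  omega

theorem OkA.podd (h : OkA n) {q : ℕ} (hq : q ∈ n.primeFactors) : Odd q :=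
  (pf_prime hq).odd_of_ne_two (h.ne2 hq)

theorem OkA.fac1 (h : OkA n) {q : ℕ} (hq : q ∈ n.primeFactors) : n.factorization q = 1 := by
  apply le_antisymm
  · exact h.sq.natFactorization_le_one q
  · exact (dvd_fac (pf_prime hq) h.n0).1 (pf_dvd hq)

theorem OkA.prod (h : OkA n) : ∏ q ∈ n.primeFactors, q = n := Nat.prod_primeFactors_of_squarefree h.sq

/-- the value of `Ps` away from `n` -/
theorem OkA.Ps_nd (h : OkA n) {m : ℕ} (hm : ∀ q ∈ n.primeFactors, ¬ q ∣ m) :
    Ps n.primeFactors m = jacobiSym m n := by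
  conv_rhs => rw [← h.prod]
  rw [jac_prod _ _ fun q hq => (pf_prime hq).ne_zero]
  unfold Ps
  exact Finset.prod_congr rfl fun q hq => chp_nd (hm q hq)

/-- reciprocity -/
theorem OkA.recip (h : OkA n) {l : ℕ} (hl : Odd l) : jacobiSym (-(n : ℤ)) l = jacobiSym l n := by
  rw [jacobiSym.neg _ hl]
  have h2 : l % 4 = 1 ∨ l % 4 = 3 := by
    rw [Nat.odd_iff] at hl; omega
  rcases h2 with h2 | h2
  · rw [ZMod.χ₄_nat_one_mod_four h2, one_mul, jacobiSym.quadratic_reciprocity_one_mod_four' h.odd h2]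
  · rw [ZMod.χ₄_nat_three_mod_four h2, jacobiSym.quadratic_reciprocity_three_mod_four h.m4 h2]
    ring

theorem OkA.Ps_l (h : OkA n) {l : ℕ} (hl : l.Prime) (h2 : l ≠ 2) (hn : l ∉ n.primeFactors) :
    Ps n.primeFactors l = jacobiSym (-(n : ℤ)) l := by
  rw [h.recip (hl.odd_of_ne_two h2), h.Ps_nd]
  intro q hq hd
  rw [(Nat.prime_dvd_prime_iff_eq (pf_prime hq) hl).1 hd] at hq
  exact hn hq

theorem OkA.Ps_two (h : OkA n) : Ps n.primeFactors 2 = -1 := by
  rw [h.Ps_nd]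
  · have h8 := h.m8
    rw [Nat.cast_ofNat, jacobiSym.at_two h.odd, ZMod.χ₈_nat_eq_if_mod_eight, if_neg (by omega),
      if_neg (by omega)]
  · intro q hq hd
    exact h.ne2 hq ((Nat.prime_dvd_prime_iff_eq (pf_prime hq) Nat.prime_two).1 hd)

/-- reciprocity for the primes of `n` -/
theorem OkA.Ps_p (h : OkA n) {l : ℕ} (hl : l ∈ n.primeFactors) : Ps n.primeFactors l = chp l n := by
  classical
  obtain ⟨m, hm⟩ : ∃ m, m = ∏ q ∈ n.primeFactors.erase l, q := ⟨_, rfl⟩
  have hlp := pf_prime hl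
  have e1 : l * m = n := by
    rw [hm]
    exact (Finset.mul_prod_erase n.primeFactors (fun q => q) hl).trans h.prod
  have hnd : ¬ l ∣ m := by
    intro h1
    have h2 : l * l ∣ n := by rw [← e1]; exact mul_dvd_mul_left l h1
    exact hlp.one_lt.ne' (Nat.isUnit_iff.1 (h.sq l h2))
  have e2 : chp l n = jacobiSym (m : ℤ) l := by
    rw [← e1, chp_mul, chp_self hlp, one_mul, chp_nd hnd]
  have e3 : Ps n.primeFactors l = jacobiSym (l : ℤ) m := by
    unfold Ps
    rw [← Finset.mul_prod_erase _ _ hl, chp_self hlp, one_mul, hm,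
      jac_prod _ _ fun q hq => (pf_prime (Finset.mem_of_mem_erase hq)).ne_zero]
    refine Finset.prod_congr rfl fun q hq => chp_nd fun hd => ?_
    exact (Finset.ne_of_mem_erase hq)
      ((Nat.prime_dvd_prime_iff_eq (pf_prime (Finset.mem_of_mem_erase hq)) hlp).1 hd)
  rw [e2, e3]
  have h4 := h.m4
  have hlo := h.podd hl
  have hmo : Odd m := by
    rcases Nat.even_or_odd m with h5 | h5
    · exfalso
      have : Even n := by rw [← e1]; exact h5.mul_left l
      exact (Nat.not_even_iff_odd.2 h.odd) this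
    · exact h5
  have h6 : (l % 4 = 1 ∧ m % 4 = 3) ∨ (l % 4 = 3 ∧ m % 4 = 1) := by
    have h7 : l % 4 = 1 ∨ l % 4 = 3 := by rw [Nat.odd_iff] at hlo; omega
    have h8 : m % 4 = 1 ∨ m % 4 = 3 := by rw [Nat.odd_iff] at hmo; omega
    have h9 : (l % 4) * (m % 4) % 4 = 3 := by rw [← Nat.mul_mod, e1, h4]
    rcases h7 with h7 | h7 <;> rcases h8 with h8 | h8 <;> rw [h7, h8] at h9 <;> omega
  rcases h6 with h6 | h6
  · exact jacobiSym.quadratic_reciprocity_one_mod_four h6.1 hmo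
  · exact (jacobiSym.quadratic_reciprocity_one_mod_four h6.2 hlo).symm

theorem OkA.cm (_h : OkA n) : Cm (Ps n.primeFactors) :=
  ⟨Ps_one _, Ps_mul _, fun _ ha => Ps_pm (fun _ hq => pf_prime hq) ha⟩

theorem OkA.st (h : OkA n) {S T : ℕ} (hS : S ≠ 0) (hT : T ≠ 0) (hST : S + T = n) :
    St n.primeFactors {2} (Ps n.primeFactors) S T where
  cm := h.cm
  pr := fun _ hp => pf_prime hp
  odd := fun _ hp => h.podd hp
  ep := fun l hl => by rw [Finset.mem_singleton.1 hl]; exact Nat.prime_two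
  dis := fun p hp hp2 => h.ne2 hp (Finset.mem_singleton.1 hp2)
  S0 := hS
  T0 := hT
  dd := fun q hq => Pool.Agent.N789.P24.dvd_iff' hST hq
  oz := fun l hp hl _ => by
    by_contra h0
    push Not at h0
    have h1 := (dvd_fac hp hS).2 (by omega)
    have h3 := (dvd_fac hp hT).2 (by omega)
    exact hl ((h.mem hp).2 (hST ▸ dvd_add h1 h3))

/-! ### the divisor sum -/

theorem psp_zero {a c S T : ℕ} (hT : T ≠ 0) (h3 : 3 ∣ T) (hc : c ∣ T) (ha3 : ¬ 3 ∣ a)
    (hc3 : ¬ 3 ∣ c) : psp 3 a c (S / a) (T / c) = 0 := by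
  obtain ⟨X, rfl⟩ := hc
  have c0 : c ≠ 0 := left_ne_zero_of_mul hT
  rw [Nat.mul_div_cancel_left _ (Nat.pos_of_ne_zero c0)]
  have hX : 3 ∣ X := ((Nat.prime_three).dvd_mul.1 h3).resolve_left hc3
  unfold psp
  rw [if_neg (fun h => ha3 h.1)]
  apply jacobiSym.eq_zero_iff_not_coprime.2
  intro h
  have h1 : (3 : ℕ) ∣ Int.gcd (-((a * X : ℕ) : ℤ)) ((3 : ℕ) : ℤ) := by
    apply Nat.dvd_gcd
    · rw [Int.natAbs_neg, Int.natAbs_natCast]
      exact hX.mul_left a
    · rw [Int.natAbs_natCast]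
  rw [h] at h1
  omega

theorem WWC_eq (h : OkA n) (h3 : 3 ∣ n) {S T : ℕ} (hS : S ≠ 0) (hT : T ≠ 0)
    (hST : S + T = n) (hT3 : ¬ 3 ∣ T) :
    WWC n S T = ∑ a ∈ S.divisors, ∑ c ∈ T.divisors,
      (∏ l ∈ ({2} : Finset ℕ), s2 (S.factorization 2) (a.factorization l)) *
        (Ps n.primeFactors a * Ps n.primeFactors c *
          ∏ p ∈ n.primeFactors, wq S T p (a.factorization p) (c.factorization p)) := by
  have hS3 : ¬ 3 ∣ S := by omega
  unfold WWC
  have h0 : S.divisors.filter (fun a => 2 ∣ a ∧ ¬ 3 ∣ a) = S.divisors.filter (fun a => 2 ∣ a) := by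
    refine Finset.filter_congr fun a ha => ?_
    have ha1 := Nat.dvd_of_mem_divisors ha
    exact and_iff_left fun h3 => hS3 (h3.trans ha1)
  have h1 : T.divisors.filter (fun c => ¬ 3 ∣ c) = T.divisors :=
    Finset.filter_true_of_mem fun c hc h3 => hT3 (h3.trans (Nat.dvd_of_mem_divisors hc))
  rw [h0, h1, Finset.sum_filter]
  refine Finset.sum_congr rfl fun a ha => ?_
  have ha1 := Nat.dvd_of_mem_divisors ha
  have a0 : a ≠ 0 := by rintro rfl; exact hS (zero_dvd_iff.1 ha1)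
  split_ifs with h2
  · refine Finset.sum_congr rfl fun c hc => ?_
    have hc1 := Nat.dvd_of_mem_divisors hc
    rw [Finset.prod_singleton, sg_eq hS ha1 h2]
    congr 1
    unfold Ps
    rw [← Finset.prod_mul_distrib, ← Finset.prod_mul_distrib]
    exact Finset.prod_congr rfl fun p hp => psp_eq (pf_prime hp) (h.podd hp) hS hT
      (Pool.Agent.N789.P24.dvd_iff' hST hp) ha1 hc1
  · symm
    refine Finset.sum_eq_zero fun c _ => ?_
    have h3 : s2 (S.factorization 2) (a.factorization 2) = 0 := by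
      unfold s2
      rw [if_neg]
      rw [← dvd_fac Nat.prime_two a0]
      exact h2
    rw [Finset.prod_singleton, h3, zero_mul]

theorem WWC_zero (h3 : 3 ∈ n.primeFactors) {S T : ℕ} (hT : T ≠ 0) (hT3 : 3 ∣ T) : WWC n S T = 0 := by
  unfold WWC
  refine Finset.sum_eq_zero fun a ha => Finset.sum_eq_zero fun c hc => ?_
  rw [Finset.mem_filter] at ha hc
  rw [Finset.prod_eq_zero h3 (psp_zero hT hT3 (Nat.dvd_of_mem_divisors hc.1) ha.2.2 hc.2), mul_zero]

theorem prod_four {n D : ℕ} (hn : n ≠ 0) (hD : D ≠ 0)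
    (h1 : ∀ l, l.Prime → l ≠ 2 → l ∣ n → n.factorization l = 1) :
    ∏ l ∈ (4 * D).primeFactors.erase 2, fac n (4 * D) l =
      ∏ l ∈ D.primeFactors.erase 2, fac n D l := by
  rw [pf_four hD]
  refine Finset.prod_congr rfl fun l hl => ?_
  have h2 := Finset.mem_erase.1 hl
  have h3 := Nat.prime_of_mem_primeFactors h2.2
  exact fac_four h3 h2.1 hn hD (h1 l h3 h2.1)

/-- the evaluation in product form -/
theorem WWC_val (h : OkA n) (h3 : 3 ∣ n) {S T : ℕ} (hS : S ≠ 0) (hT : T ≠ 0)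
    (hST : S + T = n) (hT2 : ¬ 2 ∣ T) (hT3 : ¬ 3 ∣ T) :
    WWC n S T = - ((if Odd (S.factorization 2) then (if S.factorization 2 = 1 then -1 else 3) else 0) *
      ∏ l ∈ (S * T).primeFactors.erase 2, fac n (S * T) l) := by
  classical
  have hst := h.st hS hT hST
  rw [WWC_eq h h3 hS hT hST hT3, hst.val (fun _ i _ => s2 (S.factorization 2) i),
    Finset.prod_singleton]
  have e1 : Le (Ps n.primeFactors) (fun _ i _ => s2 (S.factorization 2) i) S T 2 =
      if Odd (S.factorization 2) then (if S.factorization 2 = 1 then -1 else 3) else 0 := by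
    unfold Le
    rw [Nat.factorization_eq_zero_of_not_dvd hT2, zero_add, ← s2_sum]
    refine Finset.sum_congr rfl fun i _ => ?_
    rw [Finset.sum_range_one, h.Ps_two, add_zero]
  have e2 : ∏ l ∈ (S * T).primeFactors.erase 2, fac n (S * T) l =
      ∏ l ∈ (S * T).primeFactors \ {2}, Fl n.primeFactors (Ps n.primeFactors) S T l := by
    rw [Finset.sdiff_singleton_eq_erase]
    refine Finset.prod_congr rfl fun l hl => ?_
    have h2 := Finset.mem_erase.1 hl
    have hp := Nat.prime_of_mem_primeFactors h2.2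
    exact fac_Fl hS hT h.n0 hp h2.1 (h.mem hp)
      (fun hd => ⟨h.fac1 ((h.mem hp).2 hd), h.Ps_p ((h.mem hp).2 hd)⟩)
      (fun hd => h.Ps_l hp h2.1 (fun h4 => hd ((h.mem hp).1 h4)))
  rw [e1, e2]
  by_cases hF : ∀ l ∈ (S * T).primeFactors \ {2}, Fl n.primeFactors (Ps n.primeFactors) S T l ≠ 0
  · have e3 := hst.sgn (Finset.mem_singleton_self 2)
      (fun l hl h2 => absurd (Finset.mem_singleton.1 hl) h2) hF T (Or.inl rfl)
    have e4 : ∏ l ∈ n.primeFactors, Sl (Ps n.primeFactors) T l = -1 := by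
      unfold Sl
      have c3 : ∏ l ∈ n.primeFactors, ZMod.χ₄ (l : ZMod 4) = -1 := by
        rw [← map_prod, ← Nat.cast_prod, h.prod]
        exact ZMod.χ₄_nat_three_mod_four h.m4
      have e5 : ∏ l ∈ n.primeFactors, chp l T = Ps n.primeFactors T := rfl
      rw [Finset.prod_mul_distrib, Finset.prod_mul_distrib, c3, e5, e3,
        Nat.factorization_eq_zero_of_not_dvd hT2, pow_zero, mul_one]
      have := h.cm.sq hT
      linear_combination (-1 : ℤ) * this
    rw [e4]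
    ring
  · push Not at hF
    obtain ⟨l, hl, hl0⟩ := hF
    rw [Finset.prod_eq_zero hl hl0]
    ring

/-- C2A3 -/
theorem t_C2A3 : S_C2A3 := by
  intro n hn T hTn hT2
  have hn2 := hn.2
  have h : OkA n := ⟨hn.1, by omega⟩
  have h3 : 3 ∣ n := by omega
  have h3m : 3 ∈ n.primeFactors := (h.mem Nat.prime_three).2 h3
  obtain ⟨S, hSdef⟩ : ∃ S, S = n - T := ⟨_, rfl⟩
  rw [← hSdef]
  have hST : S + T = n := by omega
  have hS : S ≠ 0 := by omega
  have hT : T ≠ 0 := by omega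
  have hST0 := mul_ne_zero hS hT
  have hT2' : ¬ 2 ∣ T := by omega
  split_ifs with hT3
  · exact WWC_zero h3m hT hT3
  · rw [WWC_val h h3 hS hT hST hT2' hT3]
    unfold w2 le
    have hv : (4 * (S * T)).factorization 2 = S.factorization 2 + 2 := by
      rw [fac42 hST0, fac_ST (l := 2) hS hT, Nat.factorization_eq_zero_of_not_dvd hT2',
        add_zero]
    rw [mul_assoc 4 S T, hv, prod_four h.n0 hST0 (fun l hp _ hd => h.fac1 ((h.mem hp).2 hd))]
    by_cases h1 : Odd (S.factorization 2)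
    · have h2 : Odd (S.factorization 2 + 2) := h1.add_even (by decide)
      rw [if_pos h1, if_pos h2]
      by_cases h3 : S.factorization 2 = 1
      · rw [if_pos h3, if_pos (by omega)]
      · rw [if_neg h3, if_neg (by omega)]
    · have h2 : ¬ Odd (S.factorization 2 + 2) := by
        rw [Nat.not_odd_iff_even] at h1 ⊢
        exact h1.add (by decide)
      rw [if_neg h1, if_neg h2]

end Pool.Agent.N579.P24
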