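import Pool.Agent.N579.P24.C2A3
import Pool.Agent.N295.P15.C2EA

/-!
# P24x-C2 (helper579): `n ≡ 2, 6 mod 12`

The symbols are those of `Pool/Agent/N295/P15/C2EA.lean` (helper295) for `4 n`.
-/

set_option autoImplicit false

namespace Pool.Agent.N579.P24

open Finset
open Pool.Agent.Z700 (hh fac)
open Pool.Agent.Y574.Z7 (chp chp_mul chp_one chp_self chp_nd chp_sq chp_pm jac_eq sum_local two_pt
  dvd_fac nd4 jac_prod)
open Pool.Agent.N877.P24
open Pool.Agent.N969.P15 (Ev c2)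
open Pool.Agent.N789.P24 (wq psp_eq fac_ST alt_zero fac4 chp4 pf_four fac42)
open Pool.Agent.N295.P15.E (Fd oc oc_mul oc_one oc_nd oc_sq jac_four)

/-! ### the class -/

/-- the hypotheses on `n` -/
structure OkE (n : ℕ) : Prop where
  sq : Squarefree n
  m4 : n % 4 = 2

variable {n : ℕ}

/-- the character -/
def ps (n m : ℕ) : ℤ := Pool.Agent.N295.P15.E.Ps (4 * n) m

/-- the product of the symbols at the odd primes -/
def pc (n m : ℕ) : ℤ := ∏ q ∈ n.primeFactors.erase 2, chp q m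

theorem OkE.n0 (h : OkE n) : n ≠ 0 := by
  rintro rfl
  have := h.m4
  omega

theorem OkE.fd (h : OkE n) : Fd (4 * n) := ⟨⟨n, rfl, h.sq, Or.inr h.m4⟩⟩

theorem OkE.cm (_h : OkE n) : Cm (ps n) :=
  ⟨Pool.Agent.N295.P15.E.Ps_one _, Pool.Agent.N295.P15.E.Ps_mul _,
    fun _ ha => Pool.Agent.N295.P15.E.Ps_pm ha⟩

theorem OkE.split (h : OkE n) (m : ℕ) : ps n m = oc (4 * n) m * pc n m := by
  unfold ps pc
  rw [h.fd.Ps_split, pf_four h.n0]

theorem pe_prime {q : ℕ} (hq : q ∈ n.primeFactors.erase 2) : q.Prime :=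
  Nat.prime_of_mem_primeFactors (Finset.mem_of_mem_erase hq)

theorem pe_odd {q : ℕ} (hq : q ∈ n.primeFactors.erase 2) : Odd q :=
  (pe_prime hq).odd_of_ne_two (Finset.ne_of_mem_erase hq)

theorem pe_dvd {q : ℕ} (hq : q ∈ n.primeFactors.erase 2) : q ∣ n :=
  Nat.dvd_of_mem_primeFactors (Finset.mem_of_mem_erase hq)

theorem OkE.mem (h : OkE n) {q : ℕ} (hq : q.Prime) (h2 : q ≠ 2) :
    q ∈ n.primeFactors.erase 2 ↔ q ∣ n :=
  ⟨pe_dvd, fun hd => Finset.mem_erase.2 ⟨h2, Nat.mem_primeFactors.2 ⟨hq, hd, h.n0⟩⟩⟩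

theorem pc_sq {m : ℕ} (hm : m ≠ 0) : pc n m * pc n m = 1 := by
  unfold pc
  rw [← Finset.prod_mul_distrib]
  exact Finset.prod_eq_one fun q hq => chp_sq (pe_prime hq) hm

theorem pc_mul (a b : ℕ) : pc n (a * b) = pc n a * pc n b := by
  unfold pc
  rw [← Finset.prod_mul_distrib]
  exact Finset.prod_congr rfl fun q _ => chp_mul q a b

theorem OkE.fac1 (h : OkE n) {q : ℕ} (hq : q.Prime) (hd : q ∣ n) : n.factorization q = 1 := by
  apply le_antisymm
  · exact h.sq.natFactorization_le_one q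
  · exact (dvd_fac hq h.n0).1 hd

theorem OkE.ps_p (h : OkE n) {l : ℕ} (hl : l ∈ n.primeFactors.erase 2) : ps n l = chp l n := by
  unfold ps
  rw [h.fd.Ps_p (by rw [pf_four h.n0]; exact hl), chp4 (pe_prime hl)]

theorem OkE.ps_l (h : OkE n) {l : ℕ} (hl : l.Prime) (h2 : l ≠ 2) (hn : ¬ l ∣ n) :
    ps n l = jacobiSym (-(n : ℤ)) l := by
  unfold ps
  rw [h.fd.Ps_l hl]
  · have e : (-((4 * n : ℕ) : ℤ)) = 4 * (-(n : ℤ)) := by push_cast; ring
    rw [e, jac_four (hl.odd_of_ne_two h2)]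
  · intro h3
    have h4 := Nat.dvd_of_mem_primeFactors h3
    rcases hl.dvd_mul.1 h4 with h5 | h5
    · exact nd4 hl h2 h5
    · exact hn h5

theorem OkE.dd (_h : OkE n) {S T : ℕ} (hST : S + T = 2 * n) {q : ℕ}
    (hq : q ∈ n.primeFactors.erase 2) : q ∣ S ↔ q ∣ T := by
  have h : q ∣ 2 * n := (pe_dvd hq).mul_left 2
  rw [← hST] at h
  exact ⟨fun h1 => (Nat.dvd_add_right h1).1 h, fun h1 => (Nat.dvd_add_left h1).1 h⟩

theorem OkE.st (h : OkE n) {S T : ℕ} (hS : S ≠ 0) (hT : T ≠ 0) (hST : S + T = 2 * n)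
    (Ex : Finset ℕ) (h2 : 2 ∈ Ex) (hp : ∀ l ∈ Ex, l.Prime)
    (hd : ∀ l ∈ Ex, l ≠ 2 → ¬ l ∣ n) :
    St (n.primeFactors.erase 2) Ex (ps n) S T where
  cm := h.cm
  pr := fun _ hp => pe_prime hp
  odd := fun _ hp => pe_odd hp
  ep := hp
  dis := fun p hp hp2 => hd p hp2 (Finset.ne_of_mem_erase hp) (pe_dvd hp)
  S0 := hS
  T0 := hT
  dd := fun q hq => h.dd hST hq
  oz := fun l hp hl hle => by
    have hl2 : l ≠ 2 := by rintro rfl; exact hle h2
    by_contra h0
    push Not at h0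
    have h1 := (dvd_fac hp hS).2 (by omega)
    have h3 := (dvd_fac hp hT).2 (by omega)
    have h4 : l ∣ 2 * n := hST ▸ dvd_add h1 h3
    rcases hp.dvd_mul.1 h4 with h5 | h5
    · exact hl2 ((Nat.prime_dvd_prime_iff_eq hp Nat.prime_two).1 h5)
    · exact hl ((h.mem hp hl2).2 h5)

/-! ### the sign -/

theorem OkE.sign (h : OkE n) {S T : ℕ} (hST : S + T = 2 * n) (Ex : Finset ℕ)
    (hst : St (n.primeFactors.erase 2) Ex (ps n) S T) (h2 : 2 ∈ Ex)
    (hex : ∀ l ∈ Ex, l ≠ 2 → ps n l = 1)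
    (hF : ∀ l ∈ (S * T).primeFactors \ Ex, Fl (n.primeFactors.erase 2) (ps n) S T l ≠ 0) :
    oc (4 * n) S * (ps n 2 ^ S.factorization 2 * ∏ l ∈ n.primeFactors.erase 2, Sl (ps n) T l) = 1 := by
  classical
  have hS := hst.S0
  have hT := hst.T0
  have f1 := hst.sgn h2 hex hF T (Or.inl rfl)
  have f2 := hst.sgn h2 hex hF (S * T) (Or.inr rfl)
  -- the product formula
  have f3 : ∏ l ∈ n.primeFactors.erase 2,
      (ps n l ^ (S * T).factorization l * (ZMod.χ₄ l * (chp l S * chp l T))) = 1 := by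
    refine Finset.prod_eq_one fun l hl => ?_
    have hp := pe_prime hl
    by_cases h1 : l ∣ T
    · have hm : l ∈ (S * T).primeFactors \ Ex :=
        Finset.mem_sdiff.2 ⟨(mem_ST hS hT hp).2 (Or.inr h1), hst.dis l hl⟩
      have h3 := hF l hm
      unfold Fl at h3
      rw [if_pos hl, ← fac_ST hS hT] at h3
      have h4 : (ps n l ^ (S * T).factorization l * (ZMod.χ₄ l * (chp l S * chp l T))) *
          (ps n l ^ (S * T).factorization l * (ZMod.χ₄ l * (chp l S * chp l T))) = 1 := by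
        have c1 := chp_sq hp hT
        have c2 := chp_sq hp hS
        have c3 := chi_sq (pe_odd hl)
        have c4 := pow_sq (h.cm.pm l hp.ne_zero) ((S * T).factorization l)
        calc _ = (ps n l ^ (S * T).factorization l * ps n l ^ (S * T).factorization l) *
              ((ZMod.χ₄ l * ZMod.χ₄ l) * ((chp l S * chp l S) * (chp l T * chp l T))) := by ring
          _ = 1 := by rw [c1, c2, c3, c4]; norm_num
      rcases mul_self_eq_one_iff.1 h4 with h5 | h5
      · exact h5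
      · rw [h5] at h3
        exact absurd rfl h3
    · have h1' : ¬ l ∣ S := fun h5 => h1 ((h.dd hST hl).1 h5)
      have h5 : (S * T).factorization l = 0 := by
        rw [fac_ST hS hT, Nat.factorization_eq_zero_of_not_dvd h1,
          Nat.factorization_eq_zero_of_not_dvd h1']
      rw [h5, pow_zero, one_mul, chp_nd h1', chp_nd h1]
      have h6 : jacobiSym (S : ℤ) l = jacobiSym (-(T : ℤ)) l := by
        rw [jacobiSym.mod_left (S : ℤ), jacobiSym.mod_left (-(T : ℤ))]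
        congr 1
        apply Int.emod_emod_of_dvd _ (dvd_refl (l : ℤ)) |>.symm.trans
        rw [Int.emod_emod_of_dvd _ (dvd_refl (l : ℤ))]
        apply (Int.emod_emod_of_dvd _ (dvd_refl (l : ℤ))).symm.trans
        rw [Int.emod_emod_of_dvd _ (dvd_refl (l : ℤ))]
        apply Int.ModEq.eq
        apply (Int.modEq_iff_dvd).2
        have h7 : l ∣ 2 * n := (pe_dvd hl).mul_left 2
        rw [← hST] at h7
        have h8 : (l : ℤ) ∣ (S : ℤ) + T := by exact_mod_cast h7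
        have h9 : -(T : ℤ) - S = -((S : ℤ) + T) := by ring
        rw [h9]
        exact (dvd_neg).2 h8
      rw [h6, jacobiSym.neg _ (pe_odd hl)]
      have c3 := chi_sq (pe_odd hl)
      have c1 := chp_sq hp hT
      rw [chp_nd h1] at c1
      linear_combination (jacobiSym (T : ℤ) l * jacobiSym (T : ℤ) l) * c3 + c1
  rw [Finset.prod_mul_distrib, f2, Finset.prod_mul_distrib, Finset.prod_mul_distrib] at f3
  have f4 : ∏ l ∈ n.primeFactors.erase 2, Sl (ps n) T l =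
      (ps n T * ps n 2 ^ T.factorization 2) *
        ((∏ l ∈ n.primeFactors.erase 2, ZMod.χ₄ (l : ZMod 4)) * pc n T) := by
    unfold Sl
    rw [Finset.prod_mul_distrib, Finset.prod_mul_distrib, f1]
    rfl
  have f5 : ∏ l ∈ n.primeFactors.erase 2, chp l T = pc n T := rfl
  have f6 : ∏ l ∈ n.primeFactors.erase 2, chp l S = pc n S := rfl
  rw [f4]
  rw [f5, f6, h.cm.mul, h.split S, h.split T, fac_ST hS hT, pow_add] at f3
  rw [h.split T]
  have c1 := pc_sq (n := n) hT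
  have c2 := pc_sq (n := n) hS
  generalize (∏ l ∈ n.primeFactors.erase 2, ZMod.χ₄ (l : ZMod 4)) = X at *
  generalize pc n T = t at *
  generalize pc n S = s at *
  generalize oc (4 * n) S = os at *
  generalize oc (4 * n) T = ot at *
  generalize ps n 2 ^ S.factorization 2 = A at *
  generalize ps n 2 ^ T.factorization 2 = B at *
  linear_combination f3 - (os * ot * A * B * X * t * t) * c2

/-! ### the divisor sum -/

/-- the weights at `2` and `3` -/
def ge (S l i j : ℕ) : ℤ := if i = (if l = 2 then S.factorization 2 else 0) ∧ j = 0 then 1 else 0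

theorem Le_ge {ψ : ℕ → ℤ} {S T l : ℕ} :
    Le ψ (ge S) S T l = ψ l ^ (if l = 2 then S.factorization 2 else 0) := by
  obtain ⟨i0, hi0⟩ : ∃ i0, i0 = if l = 2 then S.factorization 2 else 0 := ⟨_, rfl⟩
  have hle : i0 < S.factorization l + 1 := by
    rw [hi0]
    split_ifs with h2
    · rw [h2]; omega
    · omega
  unfold Le ge
  rw [← hi0, Finset.sum_eq_single i0]
  · rw [Finset.sum_eq_single 0]
    · simp
    · intro b _ hb
      rw [if_neg (fun h => hb h.2), mul_zero]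
    · intro h
      exact absurd (Finset.mem_range.2 (Nat.succ_pos _)) h
  · intro b _ hb
    refine Finset.sum_eq_zero fun j _ => ?_
    rw [if_neg (fun h => hb h.1), mul_zero]
  · intro h
    exact absurd (Finset.mem_range.2 hle) h

theorem ite_iff {p q : Prop} [Decidable p] [Decidable q] (h : p ↔ q) :
    (if p then (1 : ℤ) else 0) = if q then 1 else 0 := by
  by_cases h1 : p
  · rw [if_pos h1, if_pos (h.1 h1)]
  · rw [if_neg h1, if_neg (fun h2 => h1 (h.2 h2))]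

theorem OkE.WWCe_eq (h : OkE n) {S T : ℕ} (hS : S ≠ 0) (hT : T ≠ 0)
    (hST : S + T = 2 * n) (Ex : Finset ℕ)
    (hE : ∀ a c : ℕ, a ∣ S → c ∣ T → ∏ l ∈ Ex, ge S l (a.factorization l) (c.factorization l) =
      if (2 ∣ a ∧ ¬ 3 ∣ a ∧ (S / a) % 2 = 1) ∧ (c % 2 = 1 ∧ ¬ 3 ∣ c) then 1 else 0) :
    WWCe n S T = ((if S.factorization 2 = 1 then -1 else 1) * oc (4 * n) S) *
      ∑ a ∈ S.divisors, ∑ c ∈ T.divisors,
      (∏ l ∈ Ex, ge S l (a.factorization l) (c.factorization l)) *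
        (ps n a * ps n c *
          ∏ p ∈ n.primeFactors.erase 2, wq S T p (a.factorization p) (c.factorization p)) := by
  unfold WWCe
  rw [Finset.sum_filter, Finset.mul_sum]
  refine Finset.sum_congr rfl fun a ha => ?_
  have ha1 := Nat.dvd_of_mem_divisors ha
  have a0 : a ≠ 0 := by rintro rfl; exact hS (zero_dvd_iff.1 ha1)
  rw [Finset.mul_sum]
  by_cases h1 : 2 ∣ a ∧ ¬ 3 ∣ a ∧ (S / a) % 2 = 1
  · rw [if_pos h1, Finset.sum_filter]
    refine Finset.sum_congr rfl fun c hc => ?_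
    have hc1 := Nat.dvd_of_mem_divisors hc
    rw [hE a c ha1 hc1]
    by_cases h2 : c % 2 = 1 ∧ ¬ 3 ∣ c
    · have h12 : (2 ∣ a ∧ ¬ 3 ∣ a ∧ (S / a) % 2 = 1) ∧ (c % 2 = 1 ∧ ¬ 3 ∣ c) := ⟨h1, h2⟩
      rw [if_pos h2]
      rw [if_pos (c := (2 ∣ a ∧ ¬ 3 ∣ a ∧ (S / a) % 2 = 1) ∧ (c % 2 = 1 ∧ ¬ 3 ∣ c)) h12, one_mul]
      have e1 : ∏ p ∈ n.primeFactors.erase 2, psp p a c (S / a) (T / c) =
          pc n a * pc n c *
            ∏ p ∈ n.primeFactors.erase 2, wq S T p (a.factorization p) (c.factorization p) := by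
        unfold pc
        rw [← Finset.prod_mul_distrib, ← Finset.prod_mul_distrib]
        exact Finset.prod_congr rfl fun p hp => psp_eq (pe_prime hp) (pe_odd hp) hS hT
          (h.dd hST hp) ha1 hc1
      obtain ⟨Y, rfl⟩ := ha1
      have Y0 : Y ≠ 0 := right_ne_zero_of_mul hS
      have hY : a * Y / a = Y := Nat.mul_div_cancel_left _ (Nat.pos_of_ne_zero a0)
      have hY2 : Y % 2 = 1 := by rw [← hY]; exact h1.2.2
      have hY2' : ¬ 2 ∣ Y := by omega
      have hc2' : ¬ 2 ∣ c := by omega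
      have e2 : c2 (4 * n) ((c * (a * Y / a) : ℕ) : ℤ) = oc (4 * n) c * oc (4 * n) Y := by
        rw [hY, ← oc_mul, oc_nd (fun h3 => ?_)]
        rcases Nat.prime_two.dvd_mul.1 h3 with h4 | h4
        · exact hc2' h4
        · exact hY2' h4
      have e3 : (if 2 ∣ a / 2 then (1 : ℤ) else -1) =
          if (a * Y).factorization 2 = 1 then -1 else 1 := by
        have e4 : (a * Y).factorization 2 = a.factorization 2 := by
          rw [fac_ST a0 Y0, Nat.factorization_eq_zero_of_not_dvd hY2', add_zero]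
        have h5 : 1 ≤ a.factorization 2 := (dvd_fac Nat.prime_two a0).1 h1.1
        have h6 : 2 ∣ a / 2 ↔ 2 ^ 2 ∣ a := by
          have := h1.1
          constructor <;> intro h <;> omega
        rw [e4]
        by_cases h7 : a.factorization 2 = 1
        · rw [if_pos h7, if_neg]
          rw [h6, Nat.prime_two.pow_dvd_iff_le_factorization a0]
          omega
        · rw [if_neg h7, if_pos]
          rw [h6, Nat.prime_two.pow_dvd_iff_le_factorization a0]
          omega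
      rw [e1, e2, e3, h.split a, h.split c, oc_mul]
      have s1 := oc_sq (n := 4 * n) a0
      generalize oc (4 * n) a = oa at *
      generalize (∏ p ∈ n.primeFactors.erase 2,
        wq (a * Y) T p (a.factorization p) (c.factorization p)) = W at *
      generalize (if (a * Y).factorization 2 = 1 then (-1 : ℤ) else 1) = K at *
      linear_combination (-(K * oc (4 * n) c * oc (4 * n) Y * pc n a * pc n c * W)) * s1
    · have h12 : ¬ ((2 ∣ a ∧ ¬ 3 ∣ a ∧ (S / a) % 2 = 1) ∧ (c % 2 = 1 ∧ ¬ 3 ∣ c)) :=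
        fun h3 => h2 h3.2
      rw [if_neg h2]
      rw [if_neg (c := (2 ∣ a ∧ ¬ 3 ∣ a ∧ (S / a) % 2 = 1) ∧ (c % 2 = 1 ∧ ¬ 3 ∣ c)) h12, zero_mul,
        mul_zero]
  · rw [if_neg h1]
    symm
    refine Finset.sum_eq_zero fun c hc => ?_
    have h12 : ¬ ((2 ∣ a ∧ ¬ 3 ∣ a ∧ (S / a) % 2 = 1) ∧ (c % 2 = 1 ∧ ¬ 3 ∣ c)) := fun h3 => h1 h3.1
    rw [hE a c ha1 (Nat.dvd_of_mem_divisors hc)]
    rw [if_neg (c := (2 ∣ a ∧ ¬ 3 ∣ a ∧ (S / a) % 2 = 1) ∧ (c % 2 = 1 ∧ ¬ 3 ∣ c)) h12, zero_mul,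
      mul_zero]

/-- the condition at `2` -/
theorem ge_two {S a c T : ℕ} (hS : S ≠ 0) (hS2 : 2 ∣ S) (hT : T ≠ 0) (ha : a ∣ S) (hc : c ∣ T) :
    ge S 2 (a.factorization 2) (c.factorization 2) =
      if (2 ∣ a ∧ (S / a) % 2 = 1) ∧ c % 2 = 1 then 1 else 0 := by
  obtain ⟨Y, rfl⟩ := ha
  have a0 : a ≠ 0 := left_ne_zero_of_mul hS
  have c0 : c ≠ 0 := by rintro rfl; exact hT (zero_dvd_iff.1 hc)
  have Y0 : Y ≠ 0 := right_ne_zero_of_mul hS
  rw [Nat.mul_div_cancel_left _ (Nat.pos_of_ne_zero a0)]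
  unfold ge
  rw [if_pos rfl]
  have hs := (dvd_fac Nat.prime_two hS).1 hS2
  have e1 : Y % 2 = 1 ↔ Y.factorization 2 = 0 := by
    have := dvd_fac Nat.prime_two Y0
    omega
  have e2 : c % 2 = 1 ↔ c.factorization 2 = 0 := by
    have := dvd_fac Nat.prime_two c0
    omega
  have e3 := dvd_fac Nat.prime_two a0
  rw [fac_ST a0 Y0] at hs ⊢
  refine ite_iff ?_
  rw [e1, e2, e3]
  constructor
  · rintro ⟨h1, h2⟩
    exact ⟨⟨by omega, by omega⟩, h2⟩
  · rintro ⟨⟨h1, h2⟩, h3⟩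
    exact ⟨by omega, h3⟩

theorem ge_three {S a c T : ℕ} (hS : S ≠ 0) (hT : T ≠ 0) (ha : a ∣ S) (hc : c ∣ T) :
    ge S 3 (a.factorization 3) (c.factorization 3) = if ¬ 3 ∣ a ∧ ¬ 3 ∣ c then 1 else 0 := by
  have a0 : a ≠ 0 := by rintro rfl; exact hS (zero_dvd_iff.1 ha)
  have c0 : c ≠ 0 := by rintro rfl; exact hT (zero_dvd_iff.1 hc)
  have e0 : ¬ (3 : ℕ) = 2 := by norm_num
  unfold ge
  simp only [if_neg e0]
  have e1 := dvd_fac Nat.prime_three a0
  have e2 := dvd_fac Nat.prime_three c0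
  refine ite_iff ?_
  rw [e1, e2]
  omega

/-- the evaluation in product form -/
theorem OkE.WWCe_val (h : OkE n) {S T : ℕ} (hS : S ≠ 0) (hT : T ≠ 0)
    (hST : S + T = 2 * n) (Ex : Finset ℕ) (h2 : 2 ∈ Ex) (hp : ∀ l ∈ Ex, l.Prime)
    (hd : ∀ l ∈ Ex, l ≠ 2 → ¬ l ∣ n) (hex : ∀ l ∈ Ex, l ≠ 2 → ps n l = 1)
    (hE : ∀ a c : ℕ, a ∣ S → c ∣ T → ∏ l ∈ Ex, ge S l (a.factorization l) (c.factorization l) =
      if (2 ∣ a ∧ ¬ 3 ∣ a ∧ (S / a) % 2 = 1) ∧ (c % 2 = 1 ∧ ¬ 3 ∣ c) then 1 else 0) :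
    WWCe n S T = (if S.factorization 2 = 1 then -1 else 1) *
      ∏ l ∈ (S * T).primeFactors \ Ex, fac n (S * T) l := by
  classical
  have hst := h.st hS hT hST Ex h2 hp hd
  rw [h.WWCe_eq hS hT hST Ex hE, hst.val (ge S)]
  have e1 : ∏ l ∈ Ex, Le (ps n) (ge S) S T l = ps n 2 ^ S.factorization 2 := by
    rw [← Finset.mul_prod_erase _ _ h2, Le_ge, if_pos rfl, Finset.prod_eq_one, mul_one]
    intro l hl
    rw [Le_ge, if_neg (Finset.ne_of_mem_erase hl), pow_zero]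
  have e2 : ∏ l ∈ (S * T).primeFactors \ Ex, fac n (S * T) l =
      ∏ l ∈ (S * T).primeFactors \ Ex, Fl (n.primeFactors.erase 2) (ps n) S T l := by
    refine Finset.prod_congr rfl fun l hl => ?_
    rw [Finset.mem_sdiff] at hl
    have hp := Nat.prime_of_mem_primeFactors hl.1
    have h2' : l ≠ 2 := by rintro rfl; exact hl.2 h2
    exact fac_Fl hS hT h.n0 hp h2' (h.mem hp h2')
      (fun hd => ⟨h.fac1 hp hd, h.ps_p ((h.mem hp h2').2 hd)⟩)
      (fun hd => h.ps_l hp h2' hd)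
  rw [e1, e2]
  by_cases hF : ∀ l ∈ (S * T).primeFactors \ Ex, Fl (n.primeFactors.erase 2) (ps n) S T l ≠ 0
  · have e3 := h.sign hST Ex hst h2 hex hF
    generalize (∏ l ∈ (S * T).primeFactors \ Ex, Fl (n.primeFactors.erase 2) (ps n) S T l) = F at *
    generalize (if S.factorization 2 = 1 then (-1 : ℤ) else 1) = K at *
    linear_combination (K * F) * e3
  · push Not at hF
    obtain ⟨l, hl, hl0⟩ := hF
    rw [Finset.prod_eq_zero hl hl0]
    ring

theorem OkE.w4_eq (h : OkE n) {S T : ℕ} (hS : S ≠ 0) (hST : S + T = 2 * n) (hT2 : 2 ∣ T) :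
    (if S.factorization 2 = 1 then (-1 : ℤ) else 1) = w4 T := by
  have hm := h.m4
  have hS2 : 2 ∣ S := by omega
  have h5 : 1 ≤ S.factorization 2 := (dvd_fac Nat.prime_two hS).1 hS2
  have h6 : 2 ^ 2 ∣ S ↔ 2 ≤ S.factorization 2 := Nat.prime_two.pow_dvd_iff_le_factorization hS
  unfold w4
  by_cases h7 : S.factorization 2 = 1
  · have : ¬ 2 ^ 2 ∣ S := fun h8 => by have := h6.1 h8; omega
    rw [if_pos h7, if_neg (by omega)]
  · have : 2 ^ 2 ∣ S := h6.2 (by omega)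
    rw [if_neg h7, if_pos (by omega)]

theorem WWCe_zero (h3 : 3 ∈ n.primeFactors) {S T : ℕ} (hT : T ≠ 0) (hT3 : 3 ∣ T) :
    WWCe n S T = 0 := by
  unfold WWCe
  refine Finset.sum_eq_zero fun a ha => Finset.sum_eq_zero fun c hc => ?_
  rw [Finset.mem_filter] at ha hc
  rw [Finset.prod_eq_zero (Finset.mem_erase.2 ⟨by norm_num, h3⟩)
    (psp_zero hT hT3 (Nat.dvd_of_mem_divisors hc.1) ha.2.2.1 hc.2.2), mul_zero]

/-- C2E6 -/
theorem t_C2E6 : S_C2E6 := by
  intro n hn T hT0 hTn hT2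
  have hn2 := hn.2
  have h : OkE n := ⟨hn.1, by omega⟩
  have h3 : 3 ∣ n := by omega
  have h3m : 3 ∈ n.primeFactors := Nat.mem_primeFactors.2 ⟨Nat.prime_three, h3, h.n0⟩
  obtain ⟨S, hSdef⟩ : ∃ S, S = 2 * n - T := ⟨_, rfl⟩
  rw [← hSdef]
  have hST : S + T = 2 * n := by omega
  have hS : S ≠ 0 := by omega
  have hT : T ≠ 0 := by omega
  have hS2 : 2 ∣ S := by omega
  split_ifs with hT3
  · exact WWCe_zero h3m hT hT3
  · have hS3 : ¬ 3 ∣ S := by omega
    rw [h.WWCe_val hS hT hST {2} (Finset.mem_singleton_self 2)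
      (fun l hl => by rw [Finset.mem_singleton.1 hl]; exact Nat.prime_two)
      (fun l hl h2 => absurd (Finset.mem_singleton.1 hl) h2)
      (fun l hl h2 => absurd (Finset.mem_singleton.1 hl) h2), h.w4_eq hS hST hT2,
      Finset.sdiff_singleton_eq_erase]
    · rfl
    · intro a c ha hc
      rw [Finset.prod_singleton, ge_two hS hS2 hT ha hc]
      have h5 : ¬ 3 ∣ a := fun h6 => hS3 (h6.trans ha)
      have h6 : ¬ 3 ∣ c := fun h6 => hT3 (h6.trans hc)
      refine ite_iff ?_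
      tauto

/-- C2E2 -/
theorem t_C2E2 : S_C2E2 := by
  intro n hn T hT0 hTn hT2
  have hn2 := hn.2
  have h : OkE n := ⟨hn.1, by omega⟩
  have h3 : ¬ 3 ∣ n := by omega
  obtain ⟨S, hSdef⟩ : ∃ S, S = 2 * n - T := ⟨_, rfl⟩
  rw [← hSdef]
  have hST : S + T = 2 * n := by omega
  have hS : S ≠ 0 := by omega
  have hT : T ≠ 0 := by omega
  have hS2 : 2 ∣ S := by omega
  have hps3 : ps n 3 = 1 := by
    rw [h.ps_l Nat.prime_three (by norm_num) h3, jacobiSym.mod_left]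
    have h1 : (-(n : ℤ)) % ((3 : ℕ) : ℤ) = 1 := by omega
    rw [h1]; norm_num
  rw [h.WWCe_val hS hT hST {2, 3} (by simp) (fun l hl => ?_) (fun l hl h2 => ?_)
    (fun l hl h2 => ?_), h.w4_eq hS hST hT2]
  · unfold le3
    congr 1
    refine Finset.prod_congr ?_ fun _ _ => rfl
    ext l
    simp only [Finset.mem_sdiff, Finset.mem_insert, Finset.mem_singleton, Finset.mem_erase]
    tauto
  · intro a c ha hc
    rw [Finset.prod_insert (by simp), Finset.prod_singleton, ge_two hS hS2 hT ha hc,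
      ge_three hS hT ha hc]
    by_cases h5 : (2 ∣ a ∧ S / a % 2 = 1) ∧ c % 2 = 1
    · by_cases h6 : ¬ 3 ∣ a ∧ ¬ 3 ∣ c
      · rw [if_pos h5, if_pos h6, if_pos (by tauto), one_mul]
      · rw [if_pos h5, if_neg h6, if_neg (by tauto), mul_zero]
    · have h7 : ¬ ((2 ∣ a ∧ ¬ 3 ∣ a ∧ S / a % 2 = 1) ∧ c % 2 = 1 ∧ ¬ 3 ∣ c) := by tauto
      rw [if_neg h5, if_neg h7, zero_mul]
  · rw [Finset.mem_insert, Finset.mem_singleton] at hl
    rcases hl with rfl | rfl
    · exact Nat.prime_two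
    · exact Nat.prime_three
  · rw [Finset.mem_insert, Finset.mem_singleton] at hl
    rcases hl with rfl | rfl
    · exact absurd rfl h2
    · exact h3
  · rw [Finset.mem_insert, Finset.mem_singleton] at hl
    rcases hl with rfl | rfl
    · exact absurd rfl h2
    · exact hps3

end Pool.Agent.N579.P24
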