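import Pool.Agent.N877.P24.Defs2
import Pool.Agent.N789.P24.C2

/-!
# P24x-C2 (helper579): a general evaluation of the divisor sums

Adapted from `Pool/Agent/N789/P24/C2.lean` (helper789): the sums over pairs of divisors of a product
of local weights, for a general completely multiplicative sign.
-/

set_option autoImplicit false

namespace Pool.Agent.N579.P24

open Finset
open Pool.Agent.Z700 (hh fac)
open Pool.Agent.Y574.Z7 (chp chp_mul chp_one chp_self chp_nd chp_sq chp_pm jac_eq sum_local two_pt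
  dvd_fac nd4 jac_prod)
open Pool.Agent.N877.P24
open Pool.Agent.N789.P24 (wq psp_eq s2 sg_eq s2_sum fac_ST alt_zero)

/-! ### completely multiplicative signs -/

/-- a completely multiplicative function with values `1`, `-1` -/
structure Cm (ψ : ℕ → ℤ) : Prop where
  one : ψ 1 = 1
  mul : ∀ a b, ψ (a * b) = ψ a * ψ b
  pm : ∀ a, a ≠ 0 → ψ a = 1 ∨ ψ a = -1

theorem Cm.sq {ψ : ℕ → ℤ} (h : Cm ψ) {a : ℕ} (ha : a ≠ 0) : ψ a * ψ a = 1 :=
  mul_self_eq_one_iff.2 (h.pm a ha)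

theorem Cm.pow {ψ : ℕ → ℤ} (h : Cm ψ) (a k : ℕ) : ψ (a ^ k) = ψ a ^ k := by
  induction k with
  | zero => rw [pow_zero, pow_zero, h.one]
  | succ k ih => rw [pow_succ, h.mul, ih, pow_succ]

theorem Cm.prod {ψ : ℕ → ℤ} (h : Cm ψ) (s : Finset ℕ) (f : ℕ → ℕ) :
    ψ (∏ l ∈ s, f l) = ∏ l ∈ s, ψ (f l) := by
  classical
  induction s using Finset.induction_on with
  | empty => rw [Finset.prod_empty, Finset.prod_empty, h.one]
  | insert l s hl ih => rw [Finset.prod_insert hl, Finset.prod_insert hl, h.mul, ih]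

theorem Cm.fac {ψ : ℕ → ℤ} (h : Cm ψ) (Q : Finset ℕ) (n : ℕ) (hn : n ≠ 0) (hs : n.primeFactors ⊆ Q) :
    ψ n = ∏ l ∈ Q, ψ l ^ n.factorization l := by
  have h1 : ∏ l ∈ n.primeFactors, l ^ n.factorization l = n := by
    have h2 := Nat.prod_factorization_pow_eq_self hn
    unfold Finsupp.prod at h2
    rwa [Nat.support_factorization] at h2
  have h2 : ψ n = ∏ l ∈ n.primeFactors, ψ l ^ n.factorization l := by
    conv_lhs => rw [← h1]
    rw [h.prod]
    exact Finset.prod_congr rfl fun l _ => h.pow l _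
  rw [h2]
  refine Finset.prod_subset hs fun l _ hl => ?_
  rw [Finsupp.notMem_support_iff.1 (by rwa [Nat.support_factorization]), pow_zero]

theorem pow_sq {x : ℤ} (h : x = 1 ∨ x = -1) (k : ℕ) : x ^ k * x ^ k = 1 := by
  rw [← mul_pow]
  rcases h with h | h <;> rw [h] <;> norm_num

theorem chi_sq {p : ℕ} (hodd : Odd p) : ZMod.χ₄ (p : ZMod 4) * ZMod.χ₄ (p : ZMod 4) = 1 := by
  have h2 : p % 4 = 1 ∨ p % 4 = 3 := by
    rw [Nat.odd_iff] at hodd; omega
  rcases h2 with h2 | h2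
  · rw [ZMod.χ₄_nat_one_mod_four h2]; norm_num
  · rw [ZMod.χ₄_nat_three_mod_four h2]; norm_num

/-! ### the setting -/

/-- the hypotheses -/
structure St (P Ex : Finset ℕ) (ψ : ℕ → ℤ) (S T : ℕ) : Prop where
  cm : Cm ψ
  pr : ∀ p ∈ P, p.Prime
  odd : ∀ p ∈ P, Odd p
  ep : ∀ l ∈ Ex, l.Prime
  dis : ∀ p ∈ P, p ∉ Ex
  S0 : S ≠ 0
  T0 : T ≠ 0
  dd : ∀ p ∈ P, (p ∣ S ↔ p ∣ T)
  oz : ∀ l : ℕ, l.Prime → l ∉ P → l ∉ Ex → S.factorization l = 0 ∨ T.factorization l = 0

/-- all the primes -/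
def QQ (P Ex : Finset ℕ) (S T : ℕ) : Finset ℕ := Ex ∪ (P ∪ (S * T).primeFactors)

/-- the local weights -/
def Wt (P Ex : Finset ℕ) (ψ : ℕ → ℤ) (g : ℕ → ℕ → ℕ → ℤ) (S T l i j : ℕ) : ℤ :=
  ψ l ^ (i + j) * (if l ∈ P then wq S T l i j else 1) * (if l ∈ Ex then g l i j else 1)

variable {P Ex : Finset ℕ} {ψ : ℕ → ℤ} {S T : ℕ}

theorem St.QQ_prime (h : St P Ex ψ S T) : ∀ l ∈ QQ P Ex S T, l.Prime := by
  intro l hl
  unfold QQ at hl
  rcases Finset.mem_union.1 hl with hl | hl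
  · exact h.ep l hl
  rcases Finset.mem_union.1 hl with hl | hl
  · exact h.pr l hl
  · exact Nat.prime_of_mem_primeFactors hl

theorem ex_QQ : Ex ⊆ QQ P Ex S T := Finset.subset_union_left

theorem p_QQ : P ⊆ QQ P Ex S T := Finset.subset_union_left.trans Finset.subset_union_right

theorem pf_QQ : (S * T).primeFactors ⊆ QQ P Ex S T :=
  Finset.subset_union_right.trans Finset.subset_union_right

/-- the sum as a product of local sums -/
theorem St.sum_Wt (h : St P Ex ψ S T) (g : ℕ → ℕ → ℕ → ℤ) :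
    ∑ a ∈ S.divisors, ∑ c ∈ T.divisors,
      (∏ l ∈ Ex, g l (a.factorization l) (c.factorization l)) *
        (ψ a * ψ c * ∏ p ∈ P, wq S T p (a.factorization p) (c.factorization p)) =
      ∏ l ∈ QQ P Ex S T, ∑ i ∈ range (S.factorization l + 1),
        ∑ j ∈ range (T.factorization l + 1), Wt P Ex ψ g S T l i j := by
  classical
  have hST := mul_ne_zero h.S0 h.T0
  rw [← sum_local (Wt P Ex ψ g S T) (QQ P Ex S T) h.QQ_prime S T h.S0 h.T0
    (fun l hl hd => pf_QQ (Nat.mem_primeFactors.2 ⟨hl, hd.mul_right T, hST⟩))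
    (fun l hl hd => pf_QQ (Nat.mem_primeFactors.2 ⟨hl, hd.mul_left S, hST⟩))]
  refine Finset.sum_congr rfl fun a ha => Finset.sum_congr rfl fun c hc => ?_
  have ha1 := Nat.dvd_of_mem_divisors ha
  have hc1 := Nat.dvd_of_mem_divisors hc
  have a0 : a ≠ 0 := by rintro rfl; exact h.S0 (zero_dvd_iff.1 ha1)
  have c0 : c ≠ 0 := by rintro rfl; exact h.T0 (zero_dvd_iff.1 hc1)
  have hsa : a.primeFactors ⊆ QQ P Ex S T :=
    (Nat.primeFactors_mono (ha1.mul_right T) hST).trans pf_QQ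
  have hsc : c.primeFactors ⊆ QQ P Ex S T :=
    (Nat.primeFactors_mono (hc1.mul_left S) hST).trans pf_QQ
  unfold Wt
  rw [Finset.prod_mul_distrib, Finset.prod_mul_distrib]
  have e1 : ∏ l ∈ QQ P Ex S T, ψ l ^ (a.factorization l + c.factorization l) = ψ a * ψ c := by
    rw [h.cm.fac (QQ P Ex S T) a a0 hsa, h.cm.fac (QQ P Ex S T) c c0 hsc,
      ← Finset.prod_mul_distrib]
    exact Finset.prod_congr rfl fun l _ => pow_add _ _ _
  have e2 : ∏ l ∈ QQ P Ex S T, (if l ∈ P then wq S T l (a.factorization l) (c.factorization l) else 1) =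
      ∏ l ∈ P, wq S T l (a.factorization l) (c.factorization l) := by
    rw [Finset.prod_ite_mem, Finset.inter_eq_right.2 p_QQ]
  have e3 : ∏ l ∈ QQ P Ex S T, (if l ∈ Ex then g l (a.factorization l) (c.factorization l) else 1) =
      ∏ l ∈ Ex, g l (a.factorization l) (c.factorization l) := by
    rw [Finset.prod_ite_mem, Finset.inter_eq_right.2 ex_QQ]
  rw [e1, e2, e3]
  ring

/-! ### the local sums -/

/-- the local sums -/
def Ls (P Ex : Finset ℕ) (ψ : ℕ → ℤ) (g : ℕ → ℕ → ℕ → ℤ) (S T l : ℕ) : ℤ :=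
  ∑ i ∈ range (S.factorization l + 1), ∑ j ∈ range (T.factorization l + 1), Wt P Ex ψ g S T l i j

/-- the local sums at the exceptional primes -/
def Le (ψ : ℕ → ℤ) (g : ℕ → ℕ → ℕ → ℤ) (S T l : ℕ) : ℤ :=
  ∑ i ∈ range (S.factorization l + 1), ∑ j ∈ range (T.factorization l + 1), ψ l ^ (i + j) * g l i j

/-- the local factors -/
def Fl (P : Finset ℕ) (ψ : ℕ → ℤ) (S T l : ℕ) : ℤ :=
  if l ∈ P then 1 + ψ l ^ (S.factorization l + T.factorization l) *
    (ZMod.χ₄ l * (chp l S * chp l T))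
  else ∑ j ∈ range (S.factorization l + T.factorization l + 1), ψ l ^ j

/-- the local signs -/
def Sl (ψ : ℕ → ℤ) (T l : ℕ) : ℤ := ψ l ^ T.factorization l * (ZMod.χ₄ l * chp l T)

theorem St.Ls_ex (h : St P Ex ψ S T) (g : ℕ → ℕ → ℕ → ℤ) {l : ℕ} (hl : l ∈ Ex) :
    Ls P Ex ψ g S T l = Le ψ g S T l := by
  have h1 : l ∉ P := fun h1 => h.dis l h1 hl
  unfold Ls Le Wt
  simp only [if_neg h1, if_pos hl, mul_one]

theorem St.Ls_gen (h : St P Ex ψ S T) (g : ℕ → ℕ → ℕ → ℤ) {l : ℕ} (hp : l.Prime) (h1 : l ∉ P)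
    (h2 : l ∉ Ex) : Ls P Ex ψ g S T l = Fl P ψ S T l := by
  unfold Ls Wt Fl
  simp only [if_neg h1, if_neg h2, mul_one]
  rcases h.oz l hp h1 h2 with h0 | h0
  · rw [h0, zero_add, Finset.sum_range_one, zero_add]
    exact Finset.sum_congr rfl fun j _ => by rw [zero_add]
  · rw [h0, zero_add, add_zero]
    exact Finset.sum_congr rfl fun i _ => by rw [Finset.sum_range_one, add_zero]

theorem St.Ls_p (h : St P Ex ψ S T) (g : ℕ → ℕ → ℕ → ℤ) {p : ℕ} (hp : p ∈ P) :
    Ls P Ex ψ g S T p = Sl ψ T p * (if p ∣ T then Fl P ψ S T p else 1) := by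
  have hd := h.dd p hp
  have hpp := h.pr p hp
  have hS := h.S0
  have hT := h.T0
  unfold Ls Wt wq Fl Sl
  simp only [if_pos hp, if_neg (h.dis p hp), mul_one]
  by_cases h1 : p ∣ T
  · rw [if_pos h1]
    simp only [if_pos h1]
    have s1 := (dvd_fac hpp hS).1 (hd.2 h1)
    have t1 := (dvd_fac hpp hT).1 h1
    rw [two_pt (S.factorization p) (T.factorization p) (S.factorization p) 0 0 (T.factorization p)
      le_rfl (Nat.zero_le _) (Nat.zero_le _) le_rfl (Or.inl (by omega)) (chp p S)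
      (ZMod.χ₄ p * chp p T) (fun i j => ψ p ^ (i + j))]
    simp only [add_zero, zero_add]
    have c1 := chp_sq hpp hT
    have c2 : ψ p ^ T.factorization p * ψ p ^ T.factorization p = 1 :=
      pow_sq (h.cm.pm p hpp.ne_zero) _
    have c3 := chi_sq (h.odd p hp)
    rw [pow_add]
    generalize ψ p ^ T.factorization p = A at *
    generalize ψ p ^ S.factorization p = B at *
    generalize chp p T = t at *
    generalize chp p S = s at *
    generalize ZMod.χ₄ (p : ZMod 4) = κ at *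
    linear_combination (-(B * s * κ * κ * t * t)) * c2 - (B * s * t * t) * c3 - (B * s) * c1
  · rw [if_neg h1]
    simp only [if_neg h1]
    rw [Nat.factorization_eq_zero_of_not_dvd h1,
      Nat.factorization_eq_zero_of_not_dvd (fun h2 => h1 (hd.1 h2))]
    simp only [zero_add, Finset.sum_range_one, pow_zero, one_mul, mul_one]

theorem mem_ST (hS : S ≠ 0) (hT : T ≠ 0) {l : ℕ} (hl : l.Prime) :
    l ∈ (S * T).primeFactors ↔ l ∣ S ∨ l ∣ T := by
  rw [Nat.mem_primeFactors, Nat.Prime.dvd_mul hl]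
  constructor
  · rintro ⟨_, h, _⟩
    exact h
  · exact fun h => ⟨hl, h, mul_ne_zero hS hT⟩

/-- the evaluation -/
theorem St.val (h : St P Ex ψ S T) (g : ℕ → ℕ → ℕ → ℤ) :
    ∑ a ∈ S.divisors, ∑ c ∈ T.divisors,
      (∏ l ∈ Ex, g l (a.factorization l) (c.factorization l)) *
        (ψ a * ψ c * ∏ p ∈ P, wq S T p (a.factorization p) (c.factorization p)) =
      (∏ l ∈ Ex, Le ψ g S T l) * ((∏ l ∈ P, Sl ψ T l) *
        ∏ l ∈ (S * T).primeFactors \ Ex, Fl P ψ S T l) := by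
  classical
  rw [h.sum_Wt g]
  have e0 : ∏ l ∈ QQ P Ex S T, Ls P Ex ψ g S T l =
      (∏ l ∈ QQ P Ex S T \ Ex, Ls P Ex ψ g S T l) * ∏ l ∈ Ex, Ls P Ex ψ g S T l :=
    (Finset.prod_sdiff ex_QQ).symm
  have e1 : ∏ l ∈ QQ P Ex S T, ∑ i ∈ range (S.factorization l + 1),
        ∑ j ∈ range (T.factorization l + 1), Wt P Ex ψ g S T l i j =
      ∏ l ∈ QQ P Ex S T, Ls P Ex ψ g S T l := rfl
  rw [e1, e0, mul_comm, Finset.prod_congr rfl fun l hl => h.Ls_ex g hl]
  congr 1
  have e2 : ∀ l ∈ QQ P Ex S T \ Ex, Ls P Ex ψ g S T l =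
      (if l ∈ P then Sl ψ T l else 1) * (if l ∈ (S * T).primeFactors then Fl P ψ S T l else 1) := by
    intro l hl
    rw [Finset.mem_sdiff] at hl
    have hp := h.QQ_prime l hl.1
    have hD := mem_ST h.S0 h.T0 hp
    by_cases hlP : l ∈ P
    · have hD' : l ∈ (S * T).primeFactors ↔ l ∣ T := by rw [hD, h.dd l hlP, or_self]
      rw [if_pos hlP, h.Ls_p g hlP]
      simp only [hD']
    · rw [if_neg hlP, one_mul, h.Ls_gen g hp hlP hl.2]
      have hm : l ∈ (S * T).primeFactors := by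
        have h4 := hl.1
        unfold QQ at h4
        rcases Finset.mem_union.1 h4 with h4 | h4
        · exact absurd h4 hl.2
        rcases Finset.mem_union.1 h4 with h4 | h4
        · exact absurd h4 hlP
        · exact h4
      rw [if_pos hm]
  rw [Finset.prod_congr rfl e2, Finset.prod_mul_distrib, Finset.prod_ite_mem, Finset.prod_ite_mem]
  congr 1
  · refine Finset.prod_congr ?_ fun _ _ => rfl
    ext l
    rw [Finset.mem_inter, Finset.mem_sdiff]
    exact ⟨fun h1 => h1.2, fun h1 => ⟨⟨p_QQ h1, h.dis l h1⟩, h1⟩⟩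
  · refine Finset.prod_congr ?_ fun _ _ => rfl
    ext l
    rw [Finset.mem_inter, Finset.mem_sdiff, Finset.mem_sdiff]
    exact ⟨fun h1 => ⟨h1.2, h1.1.2⟩, fun h1 => ⟨⟨pf_QQ h1.1, h1.2⟩, h1.1⟩⟩

/-! ### the signs -/

/-- the sign of a number all of whose local factors away from `P` are nonzero -/
theorem St.sgn (h : St P Ex ψ S T) (h2 : 2 ∈ Ex) (hex : ∀ l ∈ Ex, l ≠ 2 → ψ l = 1)
    (hF : ∀ l ∈ (S * T).primeFactors \ Ex, Fl P ψ S T l ≠ 0) (m : ℕ) (hm : m = T ∨ m = S * T) :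
    ∏ l ∈ P, ψ l ^ m.factorization l = ψ m * ψ 2 ^ m.factorization 2 := by
  classical
  have hST := mul_ne_zero h.S0 h.T0
  have hm0 : m ≠ 0 := by
    rcases hm with rfl | rfl
    · exact h.T0
    · exact hST
  have hmd : m ∣ S * T := by
    rcases hm with rfl | rfl
    · exact dvd_mul_left _ _
    · exact dvd_rfl
  have hsub : m.primeFactors ⊆ QQ P Ex S T := (Nat.primeFactors_mono hmd hST).trans pf_QQ
  have e1 : ∏ l ∈ QQ P Ex S T, ψ l ^ m.factorization l =
      (∏ l ∈ QQ P Ex S T \ Ex, ψ l ^ m.factorization l) * ∏ l ∈ Ex, ψ l ^ m.factorization l :=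
    (Finset.prod_sdiff ex_QQ).symm
  have e2 : ∏ l ∈ Ex, ψ l ^ m.factorization l = ψ 2 ^ m.factorization 2 := by
    rw [← Finset.mul_prod_erase _ _ h2, Finset.prod_eq_one, mul_one]
    intro l hl
    rw [Finset.mem_erase] at hl
    rw [hex l hl.2 hl.1, one_pow]
  have e3 : ∏ l ∈ QQ P Ex S T \ Ex, ψ l ^ m.factorization l = ∏ l ∈ P, ψ l ^ m.factorization l := by
    symm
    refine Finset.prod_subset (fun l hl => Finset.mem_sdiff.2 ⟨p_QQ hl, h.dis l hl⟩)
      fun l hl hlP => ?_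
    rw [Finset.mem_sdiff] at hl
    have hp := h.QQ_prime l hl.1
    have hmem : l ∈ (S * T).primeFactors := by
      have h4 := hl.1
      unfold QQ at h4
      rcases Finset.mem_union.1 h4 with h4 | h4
      · exact absurd h4 hl.2
      rcases Finset.mem_union.1 h4 with h4 | h4
      · exact absurd h4 hlP
      · exact h4
    have h6 := hF l (Finset.mem_sdiff.2 ⟨hmem, hl.2⟩)
    unfold Fl at h6
    rw [if_neg hlP] at h6
    rcases h.cm.pm l hp.ne_zero with h7 | h7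
    · rw [h7, one_pow]
    · rw [h7] at h6 ⊢
      have h8 := alt_zero h6
      rcases hm with rfl | rfl
      · rcases h.oz l hp hlP hl.2 with h0 | h0
        · rw [h0, zero_add] at h8
          exact h8.neg_one_pow
        · rw [h0, pow_zero]
      · rw [fac_ST h.S0 h.T0]
        exact h8.neg_one_pow
  rw [h.cm.fac (QQ P Ex S T) m hm0 hsub, e1, e2, e3, mul_assoc,
    pow_sq (h.cm.pm 2 (by norm_num)), mul_one]

end Pool.Agent.N579.P24
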